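import Pool.Agent.N767.HC.Tab
import Pool.Agent.Y66.HC.Defs

/-!
# M8: an acyclic two dimensional flag complex with a nontrivial cocycle with values in `A₅`
-/

set_option autoImplicit false
set_option linter.all false

namespace Pool.Agent.N767.HC

open Pool.Agent.W326.DU Pool.Agent.Y66.HC

theorem dl_eq (a b : ℕ) : dl a b = if a = b then 1 else 0 := by
  unfold dl; simp [beq_iff_eq]

theorem hA (a b : Fin 21) : sg2 a b = - sg2 b a ∧ ix2 a b = ix2 b a ∧ ix2 a b < 80 ∧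
    (sg2 a b = 0 ∨ (sg2 a b = 1 ∧ es (ix2 a b) = a ∧ et (ix2 a b) = b) ∨
      (sg2 a b = -1 ∧ es (ix2 a b) = b ∧ et (ix2 a b) = a)) := by
  have h := okA
  unfold chkA at h
  have h1 := (allN_iff _ _).1 ((allN_iff _ _).1 h a a.2) b b.2
  simp only [Bool.and_eq_true, Bool.or_eq_true, beq_iff_eq, Nat.blt_eq] at h1
  obtain ⟨⟨⟨h1, h2⟩, h3⟩, h4⟩ := h1
  refine ⟨h1, h2, h3, ?_⟩
  rcases h4 with (h4 | h4) | h4
  · exact Or.inl h4
  · exact Or.inr (Or.inl ⟨h4.1.1, h4.1.2, h4.2⟩)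
  · exact Or.inr (Or.inr ⟨h4.1.1, h4.1.2, h4.2⟩)

theorem hB (e : Fin 80) : es e < 21 ∧ et e < 21 ∧ sg2 (es e) (et e) = 1 ∧ ix2 (es e) (et e) = e := by
  have h := okB
  unfold chkB at h
  have h1 := (allN_iff _ _).1 h e e.2
  simp only [Bool.and_eq_true, Bool.or_eq_true, beq_iff_eq, Nat.blt_eq] at h1
  exact ⟨h1.1.1.1, h1.1.1.2, h1.1.2, h1.2⟩

theorem hC (a b c : Fin 21) : sg3 a b c = - sg3 b a c ∧ sg3 a b c = - sg3 a c b ∧
    ix3 a b c = ix3 b a c ∧ ix3 a b c = ix3 a c b ∧ ix3 a b c < 60 := by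
  have h := okC
  unfold chkC at h
  have h1 := (allN_iff _ _).1 ((allN_iff _ _).1 ((allN_iff _ _).1 h a a.2) b b.2) c c.2
  simp only [Bool.and_eq_true, Bool.or_eq_true, beq_iff_eq, Nat.blt_eq] at h1
  exact ⟨h1.1.1.1.1, h1.1.1.1.2, h1.1.1.2, h1.1.2, h1.2⟩

theorem hD (a b c : Fin 21) : ((sg2 a b = 0 ∨ sg2 b c = 0 ∨ sg2 a c = 0) ∧ sg3 a b c = 0) ∨
    (((sg2 a b ≠ 0 ∧ sg2 b c ≠ 0) ∧ sg2 a c ≠ 0) ∧
      ((sg3 a b c = 1 ∧ (a : ℕ) = tp (ix3 a b c) ∧ (b : ℕ) = tq (ix3 a b c) ∧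
          (c : ℕ) = tr (ix3 a b c)) ∨
       (sg3 a b c = 1 ∧ (b : ℕ) = tp (ix3 a b c) ∧ (c : ℕ) = tq (ix3 a b c) ∧
          (a : ℕ) = tr (ix3 a b c)) ∨
       (sg3 a b c = 1 ∧ (c : ℕ) = tp (ix3 a b c) ∧ (a : ℕ) = tq (ix3 a b c) ∧
          (b : ℕ) = tr (ix3 a b c)) ∨
       (sg3 a b c = -1 ∧ (b : ℕ) = tp (ix3 a b c) ∧ (a : ℕ) = tq (ix3 a b c) ∧
          (c : ℕ) = tr (ix3 a b c)) ∨
       (sg3 a b c = -1 ∧ (a : ℕ) = tp (ix3 a b c) ∧ (c : ℕ) = tq (ix3 a b c) ∧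
          (b : ℕ) = tr (ix3 a b c)) ∨
       (sg3 a b c = -1 ∧ (c : ℕ) = tp (ix3 a b c) ∧ (b : ℕ) = tq (ix3 a b c) ∧
          (a : ℕ) = tr (ix3 a b c)))) := by
  have h := okD
  unfold chkD at h
  have h1 := (allN_iff _ _).1 ((allN_iff _ _).1 ((allN_iff _ _).1 h a a.2) b b.2) c c.2
  simp only [Bool.and_eq_true, Bool.or_eq_true, beq_iff_eq, Nat.blt_eq, Bool.not_eq_true',
    beq_eq_false_iff_ne, and_assoc, or_assoc] at h1
  simpa only [and_assoc, or_assoc] using h1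

theorem hE (t : Fin 60) : tp t < 21 ∧ tq t < 21 ∧ tr t < 21 ∧ tx t < 80 ∧ ty t < 80 ∧
    tz t < 80 := by
  have h := okE
  unfold chkE at h
  have h1 := (allN_iff _ _).1 h t t.2
  simp only [Bool.and_eq_true, Bool.or_eq_true, beq_iff_eq, Nat.blt_eq] at h1
  exact ⟨h1.1.1.1.1.1, h1.1.1.1.1.2, h1.1.1.1.2, h1.1.1.2, h1.1.2, h1.2⟩

theorem h0 (v : Fin 21) (e : Fin 80) :
    ∑ a : Fin 21, sg2 a v * dl (ix2 a v) e = dl v (et e) - dl v (es e) := by
  have h := ok0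
  unfold chk0 at h
  have h1 := (allN_iff _ _).1 ((allN_iff _ _).1 h v v.2) e e.2
  rwa [beq_iff_eq, sumN_eq] at h1

theorem h1 (b v : Fin 21) :
    ∑ a : Fin 21, sg2 a b * cc (ix2 a b) v = dl b v - dl b 0 := by
  have h := ok1
  unfold chk1 at h
  have h1 := (allN_iff _ _).1 ((allN_iff _ _).1 h b b.2) v v.2
  rwa [beq_iff_eq, sumN_eq] at h1

theorem h2 (i e : Fin 80) :
    ∑ a : Fin 21, sg3 a (es i) (et i) * hh (ix3 a (es i) (et i)) e =
      dl i e - (cc i (et e) - cc i (es e)) := by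
  have h := ok2
  unfold chk2 at h
  have h1 := (allN_iff _ _).1 ((allN_iff _ _).1 h i i.2) e e.2
  rwa [beq_iff_eq, sumN_eq] at h1

theorem h3 (e : Fin 80) (t : Fin 60) :
    ∑ a : Fin 21, sg3 a (es e) (et e) * dl (ix3 a (es e) (et e)) t =
      dl e (tx t) - dl e (ty t) + dl e (tz t) := by
  have h := ok3
  unfold chk3 at h
  have h1 := (allN_iff _ _).1 ((allN_iff _ _).1 h e e.2) t t.2
  rwa [beq_iff_eq, sumN_eq] at h1

theorem h4 (u t : Fin 60) : hh u (tx t) - hh u (ty t) + hh u (tz t) = dl u t := by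
  have h := ok4
  unfold chk4 at h
  have h1 := (allN_iff _ _).1 ((allN_iff _ _).1 h u u.2) t t.2
  rwa [beq_iff_eq] at h1

theorem ix2_lt (a b : Fin 21) : ix2 a b < 80 := (hA a b).2.2.1
theorem ix3_lt (a b c : Fin 21) : ix3 a b c < 60 := (hC a b c).2.2.2.2
theorem es_lt (e : Fin 80) : es e < 21 := (hB e).1
theorem et_lt (e : Fin 80) : et e < 21 := (hB e).2.1
theorem tp_lt (t : Fin 60) : tp t < 21 := (hE t).1
theorem tq_lt (t : Fin 60) : tq t < 21 := (hE t).2.1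
theorem tr_lt (t : Fin 60) : tr t < 21 := (hE t).2.2.1

/-- the graph -/
def ad (a b : Fin 21) : Prop := sg2 a b ≠ 0

theorem dlF {n : ℕ} (a b : Fin n) : dl a b = if a = b then 1 else 0 := by
  rw [dl_eq]; simp [Fin.ext_iff]

section
variable {M : Type} [AddCommGroup M]

theorem ac1 (x : Fin 21 → M) (hx : ∑ v, x v = 0) :
    ∃ y : Fin 21 → Fin 21 → M, IsAlt2 ad Set.univ y ∧ ∀ b, x b = ∑ a, y a b := by
  refine ⟨fun a b => sg2 a b • ∑ v : Fin 21, cc (ix2 a b) v • x v, ⟨?_, ?_⟩, ?_⟩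
  · intro a b
    have h := hA a b
    simp only
    rw [h.1, h.2.1, neg_smul]
  · intro a b hab
    have : sg2 a b = 0 := by
      by_contra hne
      exact hab ⟨Set.mem_univ _, Set.mem_univ _, hne⟩
    simp only [this, zero_smul]
  · intro b
    have e1 : ∑ a : Fin 21, sg2 a b • ∑ v : Fin 21, cc (ix2 a b) v • x v =
        ∑ v : Fin 21, (∑ a : Fin 21, sg2 a b * cc (ix2 a b) v) • x v := by
      simp_rw [Finset.smul_sum, smul_smul, Finset.sum_smul]
      rw [Finset.sum_comm]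
    simp only [e1, h1, sub_smul, Finset.sum_sub_distrib, ← Finset.smul_sum, hx, smul_zero,
      sub_zero, dlF]
    simp

/-- the coordinates of an alternating function -/
def w2 (y : Fin 21 → Fin 21 → M) (e : Fin 80) : M := y ⟨es e, es_lt e⟩ ⟨et e, et_lt e⟩

theorem y_eq (y : Fin 21 → Fin 21 → M) (hy : IsAlt2 ad Set.univ y) (a b : Fin 21) :
    y a b = sg2 a b • w2 y ⟨ix2 a b, ix2_lt a b⟩ := by
  unfold w2
  rcases (hA a b).2.2.2 with h | ⟨h, ha, hb⟩ | ⟨h, ha, hb⟩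
  · rw [h, zero_smul]
    exact hy.2 a b (fun hab => hab.2.2 h)
  · rw [h, one_smul]
    congr 1
    · exact Fin.ext ha.symm
    · exact Fin.ext hb.symm
  · rw [h, neg_smul, one_smul, hy.1 a b]
    congr 2
    · exact Fin.ext ha.symm
    · exact Fin.ext hb.symm

theorem y_eq' (y : Fin 21 → Fin 21 → M) (hy : IsAlt2 ad Set.univ y) (a b : Fin 21) :
    y a b = ∑ e : Fin 80, (sg2 a b * dl (ix2 a b) e) • w2 y e := by
  rw [y_eq y hy a b]
  simp_rw [mul_smul, ← Finset.smul_sum]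
  congr 1
  rw [Finset.sum_eq_single (⟨ix2 a b, ix2_lt a b⟩ : Fin 80)]
  · simp [dl_eq]
  · intro e _ he
    have : ix2 a b ≠ (e : ℕ) := fun h => he (Fin.ext h.symm)
    simp [dl_eq, this]
  · simp

theorem bd2 (y : Fin 21 → Fin 21 → M) (hy : IsAlt2 ad Set.univ y) (v : Fin 21) :
    ∑ a, y a v = ∑ e : Fin 80, (dl v (et e) - dl v (es e)) • w2 y e := by
  simp_rw [y_eq' y hy]
  rw [Finset.sum_comm]
  refine Finset.sum_congr rfl fun e _ => ?_
  rw [← Finset.sum_smul, h0]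

theorem cyc (y : Fin 21 → Fin 21 → M) (hy : IsAlt2 ad Set.univ y) (h : ∀ b, ∑ a, y a b = 0)
    (f : ℕ → ℤ) : ∑ e : Fin 80, (f (et e) - f (es e)) • w2 y e = 0 := by
  have h1 : ∑ v : Fin 21, f v • ∑ a, y a v = 0 := by simp [h]
  rw [← h1]
  simp_rw [bd2 y hy, Finset.smul_sum, smul_smul]
  rw [Finset.sum_comm]
  refine Finset.sum_congr rfl fun e _ => ?_
  rw [← Finset.sum_smul]
  congr 1
  simp_rw [mul_sub, Finset.sum_sub_distrib, dl_eq]
  have k : ∀ s : ℕ, s < 21 → f s = ∑ v : Fin 21, f v * (if (v : ℕ) = s then 1 else 0) := by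
    intro s hs
    rw [Finset.sum_eq_single (⟨s, hs⟩ : Fin 21)]
    · simp
    · intro v _ hv
      have : (v : ℕ) ≠ s := fun h => hv (Fin.ext h)
      simp [this]
    · simp
  rw [← k _ (es_lt e), ← k _ (et_lt e)]

theorem ac2 (y : Fin 21 → Fin 21 → M) (hy : IsAlt2 ad Set.univ y) (hb : ∀ b, ∑ a, y a b = 0) :
    ∃ z : Fin 21 → Fin 21 → Fin 21 → M, IsAlt3 ad Set.univ z ∧ ∀ b c, y b c = ∑ a, z a b c := by
  have hz3 : ∀ a b c : Fin 21, sg3 a b c ≠ 0 → ad a b ∧ ad b c ∧ ad a c := by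
    intro a b c h
    rcases hD a b c with h' | h'
    · exact absurd h'.2 h
    · exact ⟨h'.1.1.1, h'.1.1.2, h'.1.2⟩
  have hz : IsAlt3 ad Set.univ
      (fun a b c : Fin 21 => sg3 a b c • ∑ e : Fin 80, hh (ix3 a b c) e • w2 y e) := by
    refine ⟨?_, ?_, ?_⟩
    · intro a b c
      have h := hC a b c
      simp only
      rw [h.1, h.2.2.1, neg_smul]
    · intro a b c
      have h := hC a b c
      simp only
      rw [h.2.1, h.2.2.2.1, neg_smul]
    · intro a b c habc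
      have : sg3 a b c = 0 := by
        by_contra hne
        have := hz3 a b c hne
        exact habc ⟨Set.mem_univ _, Set.mem_univ _, Set.mem_univ _, this.1, this.2.1, this.2.2⟩
      simp only [this, zero_smul]
  refine ⟨_, hz, ?_⟩
  set z := fun a b c : Fin 21 => sg3 a b c • ∑ e : Fin 80, hh (ix3 a b c) e • w2 y e with hzdef
  have key : ∀ i : Fin 80, w2 y i =
      ∑ a, z a ⟨es i, es_lt i⟩ ⟨et i, et_lt i⟩ := by
    intro i
    have e1 : ∑ a, z a ⟨es i, es_lt i⟩ ⟨et i, et_lt i⟩ =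
        ∑ e : Fin 80, (∑ a : Fin 21, sg3 a (es i) (et i) * hh (ix3 a (es i) (et i)) e) •
          w2 y e := by
      simp only [hzdef]
      simp_rw [Finset.smul_sum, smul_smul, Finset.sum_smul]
      rw [Finset.sum_comm]
    rw [e1]
    simp_rw [h2, sub_smul (dl _ _), Finset.sum_sub_distrib]
    rw [cyc y hy hb (fun v => cc i v), sub_zero]
    simp [dlF]
  intro b c
  rcases (hA b c).2.2.2 with h | ⟨h, ha, hb'⟩ | ⟨h, ha, hb'⟩
  · rw [hy.2 b c (fun hbc => hbc.2.2 h)]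
    symm
    refine Finset.sum_eq_zero fun a _ => hz.2.2 a b c (fun habc => habc.2.2.2.2.1 h)
  · have k := key ⟨ix2 b c, ix2_lt b c⟩
    have e1 : (⟨es (ix2 b c), es_lt ⟨ix2 b c, ix2_lt b c⟩⟩ : Fin 21) = b := Fin.ext ha
    have e2 : (⟨et (ix2 b c), et_lt ⟨ix2 b c, ix2_lt b c⟩⟩ : Fin 21) = c := Fin.ext hb'
    unfold w2 at k
    simp only at k
    rw [e1, e2] at k
    exact k
  · have k := key ⟨ix2 b c, ix2_lt b c⟩
    have e1 : (⟨es (ix2 b c), es_lt ⟨ix2 b c, ix2_lt b c⟩⟩ : Fin 21) = c := Fin.ext ha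
    have e2 : (⟨et (ix2 b c), et_lt ⟨ix2 b c, ix2_lt b c⟩⟩ : Fin 21) = b := Fin.ext hb'
    unfold w2 at k
    simp only at k
    rw [e1, e2] at k
    rw [hy.1 b c, k, ← Finset.sum_neg_distrib]
    refine Finset.sum_congr rfl fun a _ => ?_
    exact (hz.2.1 a b c).symm

/-- the coordinates of an alternating function on the triangles -/
def w3 (z : Fin 21 → Fin 21 → Fin 21 → M) (t : Fin 60) : M :=
  z ⟨tp t, tp_lt t⟩ ⟨tq t, tq_lt t⟩ ⟨tr t, tr_lt t⟩

theorem z_eq (z : Fin 21 → Fin 21 → Fin 21 → M) (hz : IsAlt3 ad Set.univ z) (a b c : Fin 21) :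
    z a b c = sg3 a b c • w3 z ⟨ix3 a b c, ix3_lt a b c⟩ := by
  rcases hD a b c with ⟨h, h'⟩ | ⟨-, h⟩
  · rw [h', zero_smul]
    refine hz.2.2 a b c ?_
    rintro ⟨-, -, -, h1, h2, h3⟩
    rcases h with h | h | h
    · exact h1 h
    · exact h2 h
    · exact h3 h
  · have e : w3 z ⟨ix3 a b c, ix3_lt a b c⟩ =
      z ⟨tp (ix3 a b c), tp_lt ⟨_, ix3_lt a b c⟩⟩ ⟨tq (ix3 a b c), tq_lt ⟨_, ix3_lt a b c⟩⟩
        ⟨tr (ix3 a b c), tr_lt ⟨_, ix3_lt a b c⟩⟩ := rfl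
    rw [e]
    rcases h with ⟨h, h1, h2, h3⟩ | ⟨h, h1, h2, h3⟩ | ⟨h, h1, h2, h3⟩ | ⟨h, h1, h2, h3⟩ |
      ⟨h, h1, h2, h3⟩ | ⟨h, h1, h2, h3⟩
    all_goals
      rw [h]
      simp only [← h1, ← h2, ← h3, Fin.eta, neg_smul, one_smul]
    · rw [hz.1 a b c, hz.2.1 b a c, neg_neg]
    · rw [hz.2.1 a b c, hz.1 a c b, neg_neg]
    · exact hz.1 a b c
    · exact hz.2.1 a b c
    · rw [hz.1 a b c, hz.2.1 b a c, neg_neg, hz.1 b c a]

theorem z_eq' (z : Fin 21 → Fin 21 → Fin 21 → M) (hz : IsAlt3 ad Set.univ z) (a b c : Fin 21) :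
    z a b c = ∑ t : Fin 60, (sg3 a b c * dl (ix3 a b c) t) • w3 z t := by
  rw [z_eq z hz a b c]
  simp_rw [mul_smul, ← Finset.smul_sum]
  congr 1
  rw [Finset.sum_eq_single (⟨ix3 a b c, ix3_lt a b c⟩ : Fin 60)]
  · simp [dl_eq]
  · intro e _ he
    have : ix3 a b c ≠ (e : ℕ) := fun h => he (Fin.ext h.symm)
    simp [dl_eq, this]
  · simp

theorem ac3 (z : Fin 21 → Fin 21 → Fin 21 → M) (hz : IsAlt3 ad Set.univ z)
    (h : ∀ b c, ∑ a, z a b c = 0) (a b c : Fin 21) : z a b c = 0 := by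
  have key : ∀ t0 : Fin 60, w3 z t0 = 0 := by
    intro t0
    have e1 : ∑ e : Fin 80, hh t0 e •
        ∑ a, z a ⟨es e, es_lt e⟩ ⟨et e, et_lt e⟩ = 0 := by
      simp [h]
    have e2 : ∀ e : Fin 80, ∑ a, z a ⟨es e, es_lt e⟩ ⟨et e, et_lt e⟩ =
        ∑ t : Fin 60, (dl e (tx t) - dl e (ty t) + dl e (tz t)) • w3 z t := by
      intro e
      simp_rw [z_eq' z hz]
      rw [Finset.sum_comm]
      refine Finset.sum_congr rfl fun t _ => ?_
      rw [← Finset.sum_smul, h3]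
    simp_rw [e2, Finset.smul_sum, smul_smul] at e1
    rw [Finset.sum_comm] at e1
    simp_rw [← Finset.sum_smul] at e1
    have k : ∀ s : ℕ, s < 80 → hh t0 s = ∑ v : Fin 80, hh t0 v * dl v s := by
      intro s hs
      simp_rw [dl_eq]
      rw [Finset.sum_eq_single (⟨s, hs⟩ : Fin 80)]
      · simp
      · intro v _ hv
        have : (v : ℕ) ≠ s := fun h => hv (Fin.ext h)
        simp [this]
      · simp
    have e3 : ∀ t : Fin 60, ∑ e : Fin 80, hh t0 e * (dl e (tx t) - dl e (ty t) + dl e (tz t)) =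
        dl t0 t := by
      intro t
      simp_rw [mul_add, mul_sub, Finset.sum_add_distrib, Finset.sum_sub_distrib]
      rw [← k _ (hE t).2.2.2.1, ← k _ (hE t).2.2.2.2.1, ← k _ (hE t).2.2.2.2.2, h4]
    simp_rw [e3, dlF] at e1
    simpa using e1
  rw [z_eq z hz, key, smul_zero]

end

theorem acyc : Acyc ad where
  ac1 M _ x hx := ac1 x hx
  ac2 M _ y hy hb := ac2 y hy hb
  ac3 M _ z hz hb := ac3 z hz hb

/-- the group elements -/
def fwd (a b : Fin 21) (x : Fin 5) : Fin 5 := ⟨gg a b x % 5, Nat.mod_lt _ (by norm_num)⟩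

theorem h5 (a b : Fin 21) (x : Fin 5) : gg a b x < 5 ∧ ∀ y : Fin 5, x = y ∨ gg a b x ≠ gg a b y := by
  have h := ok5
  unfold chk5 at h
  have h1 := (allN_iff _ _).1 ((allN_iff _ _).1 ((allN_iff _ _).1 h a a.2) b b.2) x x.2
  rw [Bool.and_eq_true, allN_iff, Nat.blt_eq] at h1
  refine ⟨h1.1, fun y => ?_⟩
  have h2 := h1.2 y y.2
  simp only [Bool.or_eq_true, beq_iff_eq, Bool.not_eq_true', beq_eq_false_iff_ne] at h2
  rcases h2 with h2 | h2
  · exact Or.inl (Fin.ext h2)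
  · exact Or.inr h2

theorem fwd_val (a b : Fin 21) (x : Fin 5) : (fwd a b x : ℕ) = gg a b x :=
  Nat.mod_eq_of_lt (h5 a b x).1

theorem fwd_inj (a b : Fin 21) : Function.Injective (fwd a b) := by
  intro x y h
  rcases (h5 a b x).2 y with h' | h'
  · exact h'
  · exfalso
    apply h'
    rw [← fwd_val, ← fwd_val, h]

/-- the cocycle -/
noncomputable def gam (a b : Fin 21) : Equiv.Perm (Fin 5) :=
  Equiv.ofBijective (fwd a b) (Finite.injective_iff_bijective.1 (fwd_inj a b))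

theorem gam_val (a b : Fin 21) (x : Fin 5) : ((gam a b x : Fin 5) : ℕ) = gg a b x := by
  unfold gam
  rw [Equiv.ofBijective_apply, fwd_val]

theorem coc (u v w : Fin 21) (h1 : u = v ∨ ad u v) (h2 : v = w ∨ ad v w) (h3 : u = w ∨ ad u w) :
    gam u v * gam v w = gam u w := by
  have hc : ∀ a b : Fin 21, (a = b ∨ ad a b) → cl a b = true := by
    intro a b h
    unfold cl
    simp only [Bool.or_eq_true, beq_iff_eq, Bool.not_eq_true', beq_eq_false_iff_ne]
    rcases h with h | h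
    · exact Or.inl (congrArg _ h)
    · exact Or.inr h
  have h := ok6
  unfold chk6 at h
  have k1 := (allN_iff _ _).1 ((allN_iff _ _).1 h u u.2) v v.2
  rw [hc u v h1, Bool.not_true, Bool.false_or] at k1
  have k2 := (allN_iff _ _).1 k1 w w.2
  rw [hc v w h2, hc u w h3, Bool.and_self, Bool.not_true, Bool.false_or] at k2
  ext x
  have k3 := (allN_iff _ _).1 k2 x x.2
  rw [beq_iff_eq] at k3
  rw [Equiv.Perm.mul_apply, gam_val, gam_val, gam_val, k3]

theorem k4 (a b c d : Fin 21) (hab : ad a b) (hac : ad a c) (had : ad a d) (hbc : ad b c)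
    (hbd : ad b d) : ¬ ad c d := by
  intro hcd
  have h := ok7
  unfold chk7 at h
  have k1 := (allN_iff _ _).1 ((allN_iff _ _).1 h a a.2) b b.2
  have e : ∀ a b : Fin 21, ad a b → (sg2 a b == 0) = false := fun a b h => by
    rw [beq_eq_false_iff_ne]; exact h
  rw [e _ _ hab, Bool.false_or] at k1
  have k2 := (allN_iff _ _).1 k1 c c.2
  rw [e _ _ hac, e _ _ hbc, Bool.false_or, Bool.false_or] at k2
  have k3 := (allN_iff _ _).1 k2 d d.2
  rw [e _ _ had, e _ _ hbd, e _ _ hcd] at k3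
  exact absurd k3 (by decide)

theorem symm' (a b : Fin 21) (h : ad a b) : ad b a := by
  unfold ad at *
  intro h'
  apply h
  rw [(hA a b).1, h', neg_zero]

theorem irr' (a : Fin 21) : ¬ ad a a := by
  intro h
  apply h
  have := (hA a a).1
  omega

/-- a path from `0` to every vertex -/
def par (a : ℕ) : ℕ := lk dPar 8 a

def chk8 : Bool := allN 21 fun a => (a == 0) || (Nat.blt (par a) 21 && !(sg2 a (par a) == 0) &&
  ((par a == 0) || (Nat.blt (par (par a)) 21 && !(sg2 (par a) (par (par a)) == 0) &&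
    (par (par a) == 0))))

theorem ok8 : chk8 = true := by decide +kernel

theorem conn0 (a : Fin 21) : Relation.ReflTransGen ad a 0 := by
  have h := ok8
  unfold chk8 at h
  have h1 := (allN_iff _ _).1 h a a.2
  simp only [Bool.and_eq_true, Bool.or_eq_true, beq_iff_eq, Nat.blt_eq, Bool.not_eq_true',
    beq_eq_false_iff_ne] at h1
  rcases h1 with h1 | ⟨⟨h1, h2⟩, h3⟩
  · have : a = 0 := Fin.ext h1
    rw [this]
  · have s1 : ad a ⟨par a, h1⟩ := h2
    rcases h3 with h3 | ⟨⟨h3, h4⟩, h5⟩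
    · have : (⟨par a, h1⟩ : Fin 21) = 0 := Fin.ext h3
      rw [this] at s1
      exact Relation.ReflTransGen.single s1
    · have s2 : ad ⟨par a, h1⟩ ⟨par (par a), h3⟩ := h4
      have : (⟨par (par a), h3⟩ : Fin 21) = 0 := Fin.ext h5
      rw [this] at s2
      exact (Relation.ReflTransGen.single s1).tail s2

theorem conn_rev {a b : Fin 21} (h : Relation.ReflTransGen ad a b) :
    Relation.ReflTransGen ad b a := by
  induction h with
  | refl => exact Relation.ReflTransGen.refl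
  | tail _ hbc ih => exact Relation.ReflTransGen.head (symm' _ _ hbc) ih

theorem conn (a b : Fin 21) : Relation.ReflTransGen ad a b :=
  (conn0 a).trans (conn_rev (conn0 b))

/-- the closed path -/
def pp : ℕ → Fin 21
  | 0 => 0
  | 1 => 5
  | 2 => 1
  | 3 => 9
  | 4 => 2
  | 5 => 6
  | _ => 0

theorem m8 : PropM8 := by
  refine ⟨Fin 21, inferInstance, inferInstance, ad, gam, 6, pp, ?_⟩
  refine ⟨symm', irr', k4, acyc, conn, coc, rfl, ?_, ?_⟩
  · intro i hi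
    interval_cases i <;> · unfold ad pp; decide +kernel
  · intro h
    have h1 := congrArg (fun g : Equiv.Perm (Fin 5) => ((g 0 : Fin 5) : ℕ)) h
    simp only [List.range_succ, List.range_zero, List.nil_append, List.map_append, List.map_cons,
      List.map_nil, List.prod_append, List.prod_cons, List.prod_nil, mul_one,
      Equiv.Perm.mul_apply, gam_val, Equiv.Perm.one_apply, pp] at h1
    revert h1
    decide +kernel

end Pool.Agent.N767.HC
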